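import Mathlib

set_option autoImplicit false

/-!
# Flow resistance and resistance: definitions and general facts

Conventions of problem MP_c254db_co.  A finite multigraph is given by its sets `V` of vertices and
`E` of edges and the two end vertices `s e`, `t e` of every edge `e`.
-/

namespace Run7.h236.Rf

section defs

variable {V E : Type}

/-- A cubic graph without loops: every vertex is an end of exactly three edges. -/
structure IsCubic (s t : E → V) : Prop where
  loopless : ∀ e, s e ≠ t e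
  cubic : ∀ v, {e | s e = v ∨ t e = v}.ncard = 3

/-- No edge is a bridge: the ends of every edge `e` stay connected when `e` is deleted. -/
def IsBridgeless (s t : E → V) : Prop :=
  ∀ e, (SimpleGraph.fromRel (fun x y : V => ∃ f, f ≠ e ∧ s f = x ∧ t f = y)).Reachable (s e) (t e)

/-- A proper 4-edge-colouring: edges with a common end have different colours. -/
def IsProper (s t : E → V) (c : E → Fin 4) : Prop :=
  ∀ e f, e ≠ f → (s e = s f ∨ s e = t f ∨ t e = s f ∨ t e = t f) → c e ≠ c f

/-- The resistance: the smallest size of a colour class of a proper 4-edge-colouring. -/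
noncomputable def resistance (s t : E → V) : ℕ :=
  sInf {k | ∃ c : E → Fin 4, IsProper s t c ∧ ∃ i, {e | c e = i}.ncard = k}

/-- The tail of `e` in the orientation `D`. -/
def tail (s t : E → V) (D : E → Bool) (e : E) : V := if D e then s e else t e

/-- The head of `e` in the orientation `D`. -/
def head (s t : E → V) (D : E → Bool) (e : E) : V := if D e then t e else s e

open Classical in
/-- A 4-flow `(D, φ)`: `φ` is integer valued with `|φ(e)| ≤ 3`, and at every vertex `v` the sum of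
`φ` over the edges with tail `v` equals the sum of `φ` over the edges with head `v`. -/
structure IsFourFlow [Fintype E] (s t : E → V) (D : E → Bool) (φ : E → ℤ) : Prop where
  bound : ∀ e, |φ e| ≤ 3
  cons : ∀ v, ∑ e ∈ Finset.univ.filter (fun e => tail s t D e = v), φ e =
    ∑ e ∈ Finset.univ.filter (fun e => head s t D e = v), φ e

/-- The flow resistance: the least number of edges with value `0` in a 4-flow. -/
noncomputable def flowResistance [Fintype E] (s t : E → V) : ℕ :=
  sInf {k | ∃ (D : E → Bool) (φ : E → ℤ), IsFourFlow s t D φ ∧ {e | φ e = 0}.ncard = k}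

end defs

section general

variable {n m : ℕ} {s t : Fin m → Fin n}

/-- the net outflow at a vertex -/
def net (s t : Fin m → Fin n) (ψ : Fin m → ℤ) (v : Fin n) : ℤ :=
  ∑ e, ((if s e = v then ψ e else 0) - (if t e = v then ψ e else 0))

/-- a sign -/
def sg (p : Prop) [Decidable p] (x : ℤ) : ℤ := if p then x else -x

theorem net_of_flow {D : Fin m → Bool} {φ : Fin m → ℤ} (h : IsFourFlow s t D φ) (v : Fin n) :
    net s t (fun e => if D e then φ e else -φ e) v = 0 := by
  classical
  have h1 := h.cons v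
  rw [Finset.sum_filter, Finset.sum_filter] at h1
  have h2 : net s t (fun e => if D e then φ e else -φ e) v =
      ∑ e, ((if tail s t D e = v then φ e else 0) - (if head s t D e = v then φ e else 0)) := by
    unfold net
    refine Finset.sum_congr rfl fun e _ => ?_
    unfold tail head
    rcases hD : D e with _ | _ <;> simp [hD] <;> split_ifs <;> ring
  rw [h2, Finset.sum_sub_distrib, sub_eq_zero]
  convert h1

theorem cons3 (hl : ∀ e, s e ≠ t e) {ψ : Fin m → ℤ} {v : Fin n} {inc : Fin 3 → Fin m}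
    (hi : ∀ e, (s e = v ∨ t e = v) ↔ ∃ k, inc k = e) (hj : ∀ k k', inc k = inc k' → k = k')
    (h : net s t ψ v = 0) : ∑ k : Fin 3, sg (s (inc k) = v) (ψ (inc k)) = 0 := by
  classical
  rw [← h]
  unfold net
  have h1 : ∑ k : Fin 3, sg (s (inc k) = v) (ψ (inc k)) =
      ∑ e ∈ Finset.univ.image inc, ((if s e = v then ψ e else 0) - (if t e = v then ψ e else 0)) := by
    rw [Finset.sum_image (fun a _ b _ hab => hj a b hab)]
    refine Finset.sum_congr rfl fun k _ => ?_
    unfold sg
    rcases (hi (inc k)).mpr ⟨k, rfl⟩ with h2 | h2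
    · have h3 : t (inc k) ≠ v := fun h4 => hl _ (h2.trans h4.symm)
      rw [if_pos h2, if_pos h2, if_neg h3, sub_zero]
    · have h3 : s (inc k) ≠ v := fun h4 => hl _ (h4.trans h2.symm)
      rw [if_neg h3, if_neg h3, if_pos h2, zero_sub]
  rw [h1]
  refine Finset.sum_subset (Finset.subset_univ _) fun e _ he => ?_
  have h2 : ¬ (s e = v ∨ t e = v) := by
    intro h3
    obtain ⟨k, hk⟩ := (hi e).mp h3
    exact he (Finset.mem_image.mpr ⟨k, Finset.mem_univ _, hk⟩)
  push Not at h2
  rw [if_neg h2.1, if_neg h2.2, sub_zero]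

/-- a walk given by its edges, avoiding `e` -/
def go (s t : Fin m → Fin n) (e : Fin m) : Fin n → List (Fin m) → Fin n → Bool
  | u, [], v => decide (u = v)
  | u, f :: l, v => decide (f ≠ e) &&
      ((decide (s f = u) && go s t e (t f) l v) || (decide (t f = u) && go s t e (s f) l v))

theorem go_sound (e : Fin m) : ∀ (l : List (Fin m)) (u v : Fin n), go s t e u l v = true →
    (SimpleGraph.fromRel (fun x y : Fin n => ∃ f, f ≠ e ∧ s f = x ∧ t f = y)).Reachable u v
  | [], u, v, h => by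
    simp only [go, decide_eq_true_eq] at h
    rw [h]
  | f :: l, u, v, h => by
    simp only [go, Bool.and_eq_true, Bool.or_eq_true, decide_eq_true_eq] at h
    obtain ⟨h1, ⟨h2, h3⟩ | ⟨h2, h3⟩⟩ := h
    · have ih := go_sound e l _ _ h3
      by_cases hne : u = t f
      · rw [hne]; exact ih
      · refine SimpleGraph.Reachable.trans (SimpleGraph.Adj.reachable ?_) ih
        exact ⟨hne, Or.inl ⟨f, h1, h2, rfl⟩⟩
    · have ih := go_sound e l _ _ h3
      by_cases hne : u = s f
      · rw [hne]; exact ih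
      · refine SimpleGraph.Reachable.trans (SimpleGraph.Adj.reachable ?_) ih
        exact ⟨hne, Or.inr ⟨f, h1, rfl, h2⟩⟩

end general

/-! ### the Petersen graph has no nowhere-zero 4-flow -/

theorem pet4 : ∀ s0 s1 s2 s3 o0 n0 : Fin 4,
    ¬ (s0 ≠ 0 ∧ s1 ≠ 0 ∧ s2 ≠ 0 ∧ s3 ≠ 0 ∧ o0 ≠ 0 ∧ n0 ≠ 0 ∧ -(s0 + s1 + s2 + s3) ≠ 0 ∧
      o0 - s1 ≠ 0 ∧ o0 - s1 - s2 ≠ 0 ∧ o0 - s1 - s2 - s3 ≠ 0 ∧ o0 + s0 ≠ 0 ∧
      n0 + s2 ≠ 0 ∧ n0 - s0 - s1 - s3 ≠ 0 ∧ n0 - s0 - s3 ≠ 0 ∧ n0 - s0 ≠ 0) := by
  decide +kernel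

theorem cast_ne {x : ℤ} (h : |x| ≤ 3) (h0 : x ≠ 0) : (x : ZMod 4) ≠ 0 := by
  intro h1
  rw [ZMod.intCast_zmod_eq_zero_iff_dvd] at h1
  have h2 := Int.eq_zero_of_abs_lt_dvd h1 (by
    push_cast
    omega)
  exact h0 h2

theorem petZ {s0 s1 s2 s3 s4 o0 o1 o2 o3 o4 n0 n1 n2 n3 n4 : ℤ}
    (hs : s0 + s1 + s2 + s3 + s4 = 0) (h1 : o1 = o0 - s1) (h2 : o2 = o1 - s2) (h3 : o3 = o2 - s3)
    (h4 : o4 = o3 - s4) (k2 : n2 = n0 + s2) (k4 : n4 = n2 + s4) (k1 : n1 = n4 + s1)
    (k3 : n3 = n1 + s3)
    (b : ∀ x ∈ [s0, s1, s2, s3, s4, o0, o1, o2, o3, o4, n0, n1, n2, n3, n4], |x| ≤ 3 ∧ x ≠ 0) :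
    False := by
  have c : ∀ x ∈ [s0, s1, s2, s3, s4, o0, o1, o2, o3, o4, n0, n1, n2, n3, n4],
      (x : ZMod 4) ≠ 0 := fun x hx => cast_ne (b x hx).1 (b x hx).2
  simp only [List.mem_cons, List.not_mem_nil, or_false, forall_eq_or_imp, forall_eq] at c
  obtain ⟨c0, c1, c2, c3, c4, d0, d1, d2, d3, d4, e0, e1, e2, e3, e4⟩ := c
  refine pet4 (s0 : ZMod 4) (s1 : ZMod 4) (s2 : ZMod 4) (s3 : ZMod 4) (o0 : ZMod 4) (n0 : ZMod 4)
    ⟨c0, c1, c2, c3, d0, e0, ?_, ?_, ?_, ?_, ?_, ?_, ?_, ?_, ?_⟩
  · have : s4 = -(s0 + s1 + s2 + s3) := by linarith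
    rw [this] at c4
    push_cast at c4
    exact c4
  · rw [h1] at d1
    push_cast at d1
    exact d1
  · have : o2 = o0 - s1 - s2 := by linarith
    rw [this] at d2
    push_cast at d2
    exact d2
  · have : o3 = o0 - s1 - s2 - s3 := by linarith
    rw [this] at d3
    push_cast at d3
    exact d3
  · have : o4 = o0 + s0 := by linarith
    rw [this] at d4
    push_cast at d4
    exact d4
  · rw [k2] at e2
    push_cast at e2
    exact e2
  · have : n4 = n0 - s0 - s1 - s3 := by linarith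
    rw [this] at e4
    push_cast at e4
    exact e4
  · have : n1 = n0 - s0 - s3 := by linarith
    rw [this] at e1
    push_cast at e1
    exact e1
  · have : n3 = n0 - s0 := by linarith
    rw [this] at e3
    push_cast at e3
    exact e3

end Run7.h236.Rf
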