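import Pool.Agent.Run7.h236.Rf.A0

set_option autoImplicit false
set_option maxRecDepth 100000

/-! # The graph with 54 vertices and 81 edges -/

namespace Run7.h236.Rf

/-- tails of the 81 edges -/
def gs : Fin 81 → Fin 54 :=
  ![1, 2, 3, 4, 0, 1, 2, 3, 4, 5, 6, 7, 8, 9, 50, 51, 11, 12, 13, 14, 10, 11, 12, 13, 14, 15,
    16, 17, 18, 19, 50, 51, 21, 22, 23, 24, 20, 21, 22, 23, 24, 25, 26, 27, 28, 29, 52, 53, 31,
    32, 33, 34, 30, 31, 32, 33, 34, 35, 36, 37, 38, 39, 52, 53, 41, 43, 44, 40, 41, 42, 43, 44,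
    45, 46, 47, 48, 49, 50, 51, 52, 53]

/-- heads of the 81 edges -/
def gt : Fin 81 → Fin 54 :=
  ![2, 3, 4, 0, 5, 6, 7, 8, 9, 7, 8, 9, 5, 6, 0, 1, 12, 13, 14, 10, 15, 16, 17, 18, 19, 17,
    18, 19, 15, 16, 10, 11, 22, 23, 24, 20, 25, 26, 27, 28, 29, 27, 28, 29, 25, 26, 20, 21, 32,
    33, 34, 30, 35, 36, 37, 38, 39, 37, 38, 39, 35, 36, 30, 31, 42, 44, 40, 45, 46, 47, 48, 49,
    47, 48, 49, 45, 46, 40, 41, 42, 43]

/-- a 4-edge-colouring -/
def gc : Fin 81 → Fin 4 :=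
  ![0, 1, 0, 2, 0, 1, 3, 2, 1, 2, 0, 0, 1, 2, 1, 2, 1, 0, 2, 1, 0, 2, 3, 1, 0, 1, 0, 2, 2, 1,
    2, 0, 1, 2, 0, 1, 2, 0, 3, 1, 2, 1, 2, 0, 0, 1, 0, 2, 0, 2, 1, 0, 1, 2, 3, 0, 2, 0, 1, 1, 2,
    0, 2, 1, 2, 1, 2, 1, 0, 0, 2, 0, 2, 1, 1, 0, 2, 0, 1, 1, 0]

/-- the edges at a vertex -/
def ginc : Fin 54 → Fin 3 → Fin 81 :=
  ![![3, 4, 14], ![0, 5, 15], ![0, 1, 6], ![1, 2, 7], ![2, 3, 8], ![4, 9, 12], ![5, 10, 13],
    ![6, 9, 11], ![7, 10, 12], ![8, 11, 13], ![19, 20, 30], ![16, 21, 31], ![16, 17, 22], ![17,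
    18, 23], ![18, 19, 24], ![20, 25, 28], ![21, 26, 29], ![22, 25, 27], ![23, 26, 28], ![24,
    27, 29], ![35, 36, 46], ![32, 37, 47], ![32, 33, 38], ![33, 34, 39], ![34, 35, 40], ![36,
    41, 44], ![37, 42, 45], ![38, 41, 43], ![39, 42, 44], ![40, 43, 45], ![51, 52, 62], ![48,
    53, 63], ![48, 49, 54], ![49, 50, 55], ![50, 51, 56], ![52, 57, 60], ![53, 58, 61], ![54,
    57, 59], ![55, 58, 60], ![56, 59, 61], ![66, 67, 77], ![64, 68, 78], ![64, 69, 79], ![65,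
    70, 80], ![65, 66, 71], ![67, 72, 75], ![68, 73, 76], ![69, 72, 74], ![70, 73, 75], ![71,
    74, 76], ![14, 30, 77], ![15, 31, 78], ![46, 62, 79], ![47, 63, 80]]

/-- a path avoiding an edge between its ends -/
def gpath : Fin 81 → List (Fin 81) :=
  ![[5, 10, 7, 1], [0, 5, 10, 7], [1, 6, 11, 8], [2, 7, 12, 4], [3, 2, 7, 12], [0, 1, 7, 10],
    [0, 5, 13, 11], [1, 0, 5, 10], [2, 1, 6, 11], [4, 3, 8, 11], [5, 0, 1, 7], [6, 0, 5, 13],
    [7, 1, 6, 9], [8, 2, 7, 10], [30, 19, 18, 17, 16, 31, 15, 0, 1, 2, 3], [31, 16, 17, 18, 19,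
    30, 14, 3, 2, 1, 0], [21, 26, 23, 17], [16, 21, 26, 23], [17, 22, 27, 24], [18, 23, 28, 20],
    [19, 18, 23, 28], [16, 17, 23, 26], [16, 21, 29, 27], [17, 16, 21, 26], [18, 17, 22, 27],
    [20, 19, 24, 27], [21, 16, 17, 23], [22, 16, 21, 29], [23, 17, 22, 25], [24, 18, 23, 26],
    [14, 3, 2, 1, 0, 15, 31, 16, 17, 18, 19], [15, 0, 1, 2, 3, 14, 30, 19, 18, 17, 16], [37, 42,
    39, 33], [32, 37, 42, 39], [33, 38, 43, 40], [34, 39, 44, 36], [35, 34, 39, 44], [32, 33,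
    39, 42], [32, 37, 45, 43], [33, 32, 37, 42], [34, 33, 38, 43], [36, 35, 40, 43], [37, 32,
    33, 39], [38, 32, 37, 45], [39, 33, 38, 41], [40, 34, 39, 42], [62, 51, 50, 49, 48, 63, 47,
    32, 33, 34, 35], [63, 48, 49, 50, 51, 62, 46, 35, 34, 33, 32], [53, 58, 55, 49], [48, 53,
    58, 55], [49, 54, 59, 56], [50, 55, 60, 52], [51, 50, 55, 60], [48, 49, 55, 58], [48, 53,
    61, 59], [49, 48, 53, 58], [50, 49, 54, 59], [52, 51, 56, 59], [53, 48, 49, 55], [54, 48,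
    53, 61], [55, 49, 54, 57], [56, 50, 55, 58], [46, 35, 34, 33, 32, 47, 63, 48, 49, 50, 51],
    [47, 32, 33, 34, 35, 46, 62, 51, 50, 49, 48], [68, 76, 74, 69], [70, 73, 76, 71], [65, 70,
    75, 67], [66, 65, 70, 75], [64, 69, 74, 76], [64, 68, 76, 74], [65, 66, 67, 75], [65, 70,
    73, 76], [67, 66, 71, 74], [76, 71, 65, 70], [69, 64, 68, 76], [70, 65, 66, 67], [71, 65,
    70, 73], [14, 3, 2, 1, 0, 15, 78, 64, 69, 72, 67], [15, 0, 1, 2, 3, 14, 77, 66, 71, 76, 68],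
    [46, 35, 34, 33, 32, 47, 80, 65, 71, 74, 69], [47, 32, 33, 34, 35, 46, 79, 64, 68, 73, 70]]

theorem g_loopless : ∀ e, gs e ≠ gt e := by decide +kernel

theorem g_inc : ∀ v e, (gs e = v ∨ gt e = v) ↔ ∃ k, ginc v k = e := by decide +kernel

theorem g_inj : ∀ v k k', ginc v k = ginc v k' → k = k' := by decide +kernel

theorem g_path : ∀ e, go gs gt e (gs e) (gpath e) (gt e) = true := by decide +kernel

theorem g_col : ∀ e f, e ≠ f → (gs e = gs f ∨ gs e = gt f ∨ gt e = gs f ∨ gt e = gt f) →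
    gc e ≠ gc f := by decide +kernel

theorem g_class : (Finset.univ.filter fun e => gc e = 3).card = 4 := by decide +kernel


section

variable {ψ : Fin 81 → ℤ} (h : ∀ v, net gs gt ψ v = 0)

include h

theorem g_cons (v : Fin 54) : ∑ k : Fin 3, sg (gs (ginc v k) = v) (ψ (ginc v k)) = 0 :=
  cons3 g_loopless (g_inc v) (g_inj v) (h v)

theorem c0 : (-ψ 3) + (ψ 4) + (-ψ 14) = 0 := by
  have := g_cons h 0
  rw [Fin.sum_univ_three] at this
  exact this

theorem c1 : (ψ 0) + (ψ 5) + (-ψ 15) = 0 := by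
  have := g_cons h 1
  rw [Fin.sum_univ_three] at this
  exact this

theorem c2 : (-ψ 0) + (ψ 1) + (ψ 6) = 0 := by
  have := g_cons h 2
  rw [Fin.sum_univ_three] at this
  exact this

theorem c3 : (-ψ 1) + (ψ 2) + (ψ 7) = 0 := by
  have := g_cons h 3
  rw [Fin.sum_univ_three] at this
  exact this

theorem c4 : (-ψ 2) + (ψ 3) + (ψ 8) = 0 := by
  have := g_cons h 4
  rw [Fin.sum_univ_three] at this
  exact this

theorem c5 : (-ψ 4) + (ψ 9) + (-ψ 12) = 0 := by
  have := g_cons h 5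
  rw [Fin.sum_univ_three] at this
  exact this

theorem c6 : (-ψ 5) + (ψ 10) + (-ψ 13) = 0 := by
  have := g_cons h 6
  rw [Fin.sum_univ_three] at this
  exact this

theorem c7 : (-ψ 6) + (-ψ 9) + (ψ 11) = 0 := by
  have := g_cons h 7
  rw [Fin.sum_univ_three] at this
  exact this

theorem c8 : (-ψ 7) + (-ψ 10) + (ψ 12) = 0 := by
  have := g_cons h 8
  rw [Fin.sum_univ_three] at this
  exact this

theorem c9 : (-ψ 8) + (-ψ 11) + (ψ 13) = 0 := by
  have := g_cons h 9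
  rw [Fin.sum_univ_three] at this
  exact this

theorem c10 : (-ψ 19) + (ψ 20) + (-ψ 30) = 0 := by
  have := g_cons h 10
  rw [Fin.sum_univ_three] at this
  exact this

theorem c11 : (ψ 16) + (ψ 21) + (-ψ 31) = 0 := by
  have := g_cons h 11
  rw [Fin.sum_univ_three] at this
  exact this

theorem c12 : (-ψ 16) + (ψ 17) + (ψ 22) = 0 := by
  have := g_cons h 12
  rw [Fin.sum_univ_three] at this
  exact this

theorem c13 : (-ψ 17) + (ψ 18) + (ψ 23) = 0 := by
  have := g_cons h 13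
  rw [Fin.sum_univ_three] at this
  exact this

theorem c14 : (-ψ 18) + (ψ 19) + (ψ 24) = 0 := by
  have := g_cons h 14
  rw [Fin.sum_univ_three] at this
  exact this

theorem c15 : (-ψ 20) + (ψ 25) + (-ψ 28) = 0 := by
  have := g_cons h 15
  rw [Fin.sum_univ_three] at this
  exact this

theorem c16 : (-ψ 21) + (ψ 26) + (-ψ 29) = 0 := by
  have := g_cons h 16
  rw [Fin.sum_univ_three] at this
  exact this

theorem c17 : (-ψ 22) + (-ψ 25) + (ψ 27) = 0 := by
  have := g_cons h 17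
  rw [Fin.sum_univ_three] at this
  exact this

theorem c18 : (-ψ 23) + (-ψ 26) + (ψ 28) = 0 := by
  have := g_cons h 18
  rw [Fin.sum_univ_three] at this
  exact this

theorem c19 : (-ψ 24) + (-ψ 27) + (ψ 29) = 0 := by
  have := g_cons h 19
  rw [Fin.sum_univ_three] at this
  exact this

theorem c20 : (-ψ 35) + (ψ 36) + (-ψ 46) = 0 := by
  have := g_cons h 20
  rw [Fin.sum_univ_three] at this
  exact this

theorem c21 : (ψ 32) + (ψ 37) + (-ψ 47) = 0 := by
  have := g_cons h 21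
  rw [Fin.sum_univ_three] at this
  exact this

theorem c22 : (-ψ 32) + (ψ 33) + (ψ 38) = 0 := by
  have := g_cons h 22
  rw [Fin.sum_univ_three] at this
  exact this

theorem c23 : (-ψ 33) + (ψ 34) + (ψ 39) = 0 := by
  have := g_cons h 23
  rw [Fin.sum_univ_three] at this
  exact this

theorem c24 : (-ψ 34) + (ψ 35) + (ψ 40) = 0 := by
  have := g_cons h 24
  rw [Fin.sum_univ_three] at this
  exact this

theorem c25 : (-ψ 36) + (ψ 41) + (-ψ 44) = 0 := by
  have := g_cons h 25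
  rw [Fin.sum_univ_three] at this
  exact this

theorem c26 : (-ψ 37) + (ψ 42) + (-ψ 45) = 0 := by
  have := g_cons h 26
  rw [Fin.sum_univ_three] at this
  exact this

theorem c27 : (-ψ 38) + (-ψ 41) + (ψ 43) = 0 := by
  have := g_cons h 27
  rw [Fin.sum_univ_three] at this
  exact this

theorem c28 : (-ψ 39) + (-ψ 42) + (ψ 44) = 0 := by
  have := g_cons h 28
  rw [Fin.sum_univ_three] at this
  exact this

theorem c29 : (-ψ 40) + (-ψ 43) + (ψ 45) = 0 := by
  have := g_cons h 29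
  rw [Fin.sum_univ_three] at this
  exact this

theorem c30 : (-ψ 51) + (ψ 52) + (-ψ 62) = 0 := by
  have := g_cons h 30
  rw [Fin.sum_univ_three] at this
  exact this

theorem c31 : (ψ 48) + (ψ 53) + (-ψ 63) = 0 := by
  have := g_cons h 31
  rw [Fin.sum_univ_three] at this
  exact this

theorem c32 : (-ψ 48) + (ψ 49) + (ψ 54) = 0 := by
  have := g_cons h 32
  rw [Fin.sum_univ_three] at this
  exact this

theorem c33 : (-ψ 49) + (ψ 50) + (ψ 55) = 0 := by
  have := g_cons h 33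
  rw [Fin.sum_univ_three] at this
  exact this

theorem c34 : (-ψ 50) + (ψ 51) + (ψ 56) = 0 := by
  have := g_cons h 34
  rw [Fin.sum_univ_three] at this
  exact this

theorem c35 : (-ψ 52) + (ψ 57) + (-ψ 60) = 0 := by
  have := g_cons h 35
  rw [Fin.sum_univ_three] at this
  exact this

theorem c36 : (-ψ 53) + (ψ 58) + (-ψ 61) = 0 := by
  have := g_cons h 36
  rw [Fin.sum_univ_three] at this
  exact this

theorem c37 : (-ψ 54) + (-ψ 57) + (ψ 59) = 0 := by
  have := g_cons h 37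
  rw [Fin.sum_univ_three] at this
  exact this

theorem c38 : (-ψ 55) + (-ψ 58) + (ψ 60) = 0 := by
  have := g_cons h 38
  rw [Fin.sum_univ_three] at this
  exact this

theorem c39 : (-ψ 56) + (-ψ 59) + (ψ 61) = 0 := by
  have := g_cons h 39
  rw [Fin.sum_univ_three] at this
  exact this

theorem c40 : (-ψ 66) + (ψ 67) + (-ψ 77) = 0 := by
  have := g_cons h 40
  rw [Fin.sum_univ_three] at this
  exact this

theorem c41 : (ψ 64) + (ψ 68) + (-ψ 78) = 0 := by
  have := g_cons h 41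
  rw [Fin.sum_univ_three] at this
  exact this

theorem c42 : (-ψ 64) + (ψ 69) + (-ψ 79) = 0 := by
  have := g_cons h 42
  rw [Fin.sum_univ_three] at this
  exact this

theorem c43 : (ψ 65) + (ψ 70) + (-ψ 80) = 0 := by
  have := g_cons h 43
  rw [Fin.sum_univ_three] at this
  exact this

theorem c44 : (-ψ 65) + (ψ 66) + (ψ 71) = 0 := by
  have := g_cons h 44
  rw [Fin.sum_univ_three] at this
  exact this

theorem c45 : (-ψ 67) + (ψ 72) + (-ψ 75) = 0 := by
  have := g_cons h 45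
  rw [Fin.sum_univ_three] at this
  exact this

theorem c46 : (-ψ 68) + (ψ 73) + (-ψ 76) = 0 := by
  have := g_cons h 46
  rw [Fin.sum_univ_three] at this
  exact this

theorem c47 : (-ψ 69) + (-ψ 72) + (ψ 74) = 0 := by
  have := g_cons h 47
  rw [Fin.sum_univ_three] at this
  exact this

theorem c48 : (-ψ 70) + (-ψ 73) + (ψ 75) = 0 := by
  have := g_cons h 48
  rw [Fin.sum_univ_three] at this
  exact this

theorem c49 : (-ψ 71) + (-ψ 74) + (ψ 76) = 0 := by
  have := g_cons h 49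
  rw [Fin.sum_univ_three] at this
  exact this

theorem c50 : (ψ 14) + (ψ 30) + (ψ 77) = 0 := by
  have := g_cons h 50
  rw [Fin.sum_univ_three] at this
  exact this

theorem c51 : (ψ 15) + (ψ 31) + (ψ 78) = 0 := by
  have := g_cons h 51
  rw [Fin.sum_univ_three] at this
  exact this

theorem c52 : (ψ 46) + (ψ 62) + (ψ 79) = 0 := by
  have := g_cons h 52
  rw [Fin.sum_univ_three] at this
  exact this

theorem c53 : (ψ 47) + (ψ 63) + (ψ 80) = 0 := by
  have := g_cons h 53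
  rw [Fin.sum_univ_three] at this
  exact this

end

end Run7.h236.Rf
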