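import Pool.Agent.Run7.h236.Rf.A1

set_option autoImplicit false

/-! # The flow resistance is at least 5 -/

namespace Run7.h236.Rf

/-- the block of an edge -/
def blk (e : Fin 81) : ℕ := min (e.val / 16) 4

section

variable {ψ : Fin 81 → ℤ} (h : ∀ v, net gs gt ψ v = 0) (hb : ∀ e, |ψ e| ≤ 3)

include h

theorem xy0 : ψ 14 + ψ 15 = 0 := by
  have e0 := c0 h
  have e1 := c1 h
  have e2 := c2 h
  have e3 := c3 h
  have e4 := c4 h
  have e5 := c5 h
  have e6 := c6 h
  have e7 := c7 h
  have e8 := c8 h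
  have e9 := c9 h
  linarith

include hb in
theorem leaf0 (hz : ∀ e, blk e = 0 → ψ e ≠ 0) : False := by
  have e0 := c0 h
  have e1 := c1 h
  have e2 := c2 h
  have e3 := c3 h
  have e4 := c4 h
  have e5 := c5 h
  have e6 := c6 h
  have e7 := c7 h
  have e8 := c8 h
  have e9 := c9 h
  refine petZ (s0 := ψ 4) (s1 := ψ 5) (s2 := ψ 6) (s3 := ψ 7) (s4 := ψ 8)
    (o0 := ψ 15) (o1 := ψ 0) (o2 := ψ 1) (o3 := ψ 2) (o4 := ψ 3)
    (n0 := ψ 9) (n1 := ψ 10) (n2 := ψ 11) (n3 := ψ 12) (n4 := ψ 13)
    (by linarith) (by linarith) (by linarith) (by linarith) (by linarith) (by linarith)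
    (by linarith) (by linarith) (by linarith) ?_
  intro x hx
  simp only [List.mem_cons, List.not_mem_nil, or_false] at hx
  rcases hx with rfl | rfl | rfl | rfl | rfl | rfl | rfl | rfl | rfl | rfl | rfl | rfl | rfl |
    rfl | rfl <;> exact ⟨hb _, hz _ (by decide)⟩

theorem xy1 : ψ 30 + ψ 31 = 0 := by
  have e0 := c10 h
  have e1 := c11 h
  have e2 := c12 h
  have e3 := c13 h
  have e4 := c14 h
  have e5 := c15 h
  have e6 := c16 h
  have e7 := c17 h
  have e8 := c18 h
  have e9 := c19 h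
  linarith

include hb in
theorem leaf1 (hz : ∀ e, blk e = 1 → ψ e ≠ 0) : False := by
  have e0 := c10 h
  have e1 := c11 h
  have e2 := c12 h
  have e3 := c13 h
  have e4 := c14 h
  have e5 := c15 h
  have e6 := c16 h
  have e7 := c17 h
  have e8 := c18 h
  have e9 := c19 h
  refine petZ (s0 := ψ 20) (s1 := ψ 21) (s2 := ψ 22) (s3 := ψ 23) (s4 := ψ 24)
    (o0 := ψ 31) (o1 := ψ 16) (o2 := ψ 17) (o3 := ψ 18) (o4 := ψ 19)
    (n0 := ψ 25) (n1 := ψ 26) (n2 := ψ 27) (n3 := ψ 28) (n4 := ψ 29)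
    (by linarith) (by linarith) (by linarith) (by linarith) (by linarith) (by linarith)
    (by linarith) (by linarith) (by linarith) ?_
  intro x hx
  simp only [List.mem_cons, List.not_mem_nil, or_false] at hx
  rcases hx with rfl | rfl | rfl | rfl | rfl | rfl | rfl | rfl | rfl | rfl | rfl | rfl | rfl |
    rfl | rfl <;> exact ⟨hb _, hz _ (by decide)⟩

theorem xy2 : ψ 46 + ψ 47 = 0 := by
  have e0 := c20 h
  have e1 := c21 h
  have e2 := c22 h
  have e3 := c23 h
  have e4 := c24 h
  have e5 := c25 h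
  have e6 := c26 h
  have e7 := c27 h
  have e8 := c28 h
  have e9 := c29 h
  linarith

include hb in
theorem leaf2 (hz : ∀ e, blk e = 2 → ψ e ≠ 0) : False := by
  have e0 := c20 h
  have e1 := c21 h
  have e2 := c22 h
  have e3 := c23 h
  have e4 := c24 h
  have e5 := c25 h
  have e6 := c26 h
  have e7 := c27 h
  have e8 := c28 h
  have e9 := c29 h
  refine petZ (s0 := ψ 36) (s1 := ψ 37) (s2 := ψ 38) (s3 := ψ 39) (s4 := ψ 40)
    (o0 := ψ 47) (o1 := ψ 32) (o2 := ψ 33) (o3 := ψ 34) (o4 := ψ 35)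
    (n0 := ψ 41) (n1 := ψ 42) (n2 := ψ 43) (n3 := ψ 44) (n4 := ψ 45)
    (by linarith) (by linarith) (by linarith) (by linarith) (by linarith) (by linarith)
    (by linarith) (by linarith) (by linarith) ?_
  intro x hx
  simp only [List.mem_cons, List.not_mem_nil, or_false] at hx
  rcases hx with rfl | rfl | rfl | rfl | rfl | rfl | rfl | rfl | rfl | rfl | rfl | rfl | rfl |
    rfl | rfl <;> exact ⟨hb _, hz _ (by decide)⟩

theorem xy3 : ψ 62 + ψ 63 = 0 := by
  have e0 := c30 h
  have e1 := c31 h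
  have e2 := c32 h
  have e3 := c33 h
  have e4 := c34 h
  have e5 := c35 h
  have e6 := c36 h
  have e7 := c37 h
  have e8 := c38 h
  have e9 := c39 h
  linarith

include hb in
theorem leaf3 (hz : ∀ e, blk e = 3 → ψ e ≠ 0) : False := by
  have e0 := c30 h
  have e1 := c31 h
  have e2 := c32 h
  have e3 := c33 h
  have e4 := c34 h
  have e5 := c35 h
  have e6 := c36 h
  have e7 := c37 h
  have e8 := c38 h
  have e9 := c39 h
  refine petZ (s0 := ψ 52) (s1 := ψ 53) (s2 := ψ 54) (s3 := ψ 55) (s4 := ψ 56)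
    (o0 := ψ 63) (o1 := ψ 48) (o2 := ψ 49) (o3 := ψ 50) (o4 := ψ 51)
    (n0 := ψ 57) (n1 := ψ 58) (n2 := ψ 59) (n3 := ψ 60) (n4 := ψ 61)
    (by linarith) (by linarith) (by linarith) (by linarith) (by linarith) (by linarith)
    (by linarith) (by linarith) (by linarith) ?_
  intro x hx
  simp only [List.mem_cons, List.not_mem_nil, or_false] at hx
  rcases hx with rfl | rfl | rfl | rfl | rfl | rfl | rfl | rfl | rfl | rfl | rfl | rfl | rfl |
    rfl | rfl <;> exact ⟨hb _, hz _ (by decide)⟩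

include hb in
theorem middle (hz : ∀ e, blk e = 4 → ψ e ≠ 0) : False := by
  have e40 := c40 h
  have e41 := c41 h
  have e42 := c42 h
  have e43 := c43 h
  have e44 := c44 h
  have e45 := c45 h
  have e46 := c46 h
  have e47 := c47 h
  have e48 := c48 h
  have e49 := c49 h
  have a0 := c50 h
  have a1 := c51 h
  have x0 := xy0 h
  have x1 := xy1 h
  have hX : ψ 77 + ψ 78 = 0 := by linarith
  have hY : ψ 79 + ψ 80 = 0 := by linarith
  refine petZ (s0 := ψ 67) (s1 := ψ 68) (s2 := ψ 69) (s3 := ψ 70) (s4 := ψ 71)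
    (o0 := ψ 78) (o1 := ψ 64) (o2 := ψ 80) (o3 := ψ 65) (o4 := ψ 66)
    (n0 := ψ 72) (n1 := ψ 73) (n2 := ψ 74) (n3 := ψ 75) (n4 := ψ 76)
    (by linarith) (by linarith) (by linarith) (by linarith) (by linarith) (by linarith)
    (by linarith) (by linarith) (by linarith) ?_
  intro x hx
  simp only [List.mem_cons, List.not_mem_nil, or_false] at hx
  rcases hx with rfl | rfl | rfl | rfl | rfl | rfl | rfl | rfl | rfl | rfl | rfl | rfl | rfl |
    rfl | rfl <;> exact ⟨hb _, hz _ (by decide)⟩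

end

/-- every 4-flow has at least five zeros -/
theorem zeros {D : Fin 81 → Bool} {φ : Fin 81 → ℤ} (hf : IsFourFlow gs gt D φ) :
    5 ≤ {e | φ e = 0}.ncard := by
  classical
  have h : ∀ v, net gs gt (fun e => if D e then φ e else -φ e) v = 0 := net_of_flow hf
  have hb : ∀ e, |(fun e => if D e then φ e else -φ e) e| ≤ 3 := by
    intro e
    beta_reduce
    split_ifs
    · exact hf.bound e
    · rw [abs_neg]
      exact hf.bound e
  have hz : ∀ e, (fun e => if D e then φ e else -φ e) e ≠ 0 ↔ φ e ≠ 0 := by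
    intro e
    beta_reduce
    split_ifs
    · exact Iff.rfl
    · exact neg_ne_zero
  have key : ∀ b : Fin 5, ∃ e, blk e = b.val ∧ φ e = 0 := by
    intro b
    by_contra hc
    push Not at hc
    fin_cases b
    · exact leaf0 h hb fun e he => (hz e).mpr (hc e he)
    · exact leaf1 h hb fun e he => (hz e).mpr (hc e he)
    · exact leaf2 h hb fun e he => (hz e).mpr (hc e he)
    · exact leaf3 h hb fun e he => (hz e).mpr (hc e he)
    · exact middle h hb fun e he => (hz e).mpr (hc e he)
  choose z hz1 hz2 using key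
  have hinj : Function.Injective z := by
    intro b b' hbb
    apply Fin.ext
    rw [← hz1 b, ← hz1 b', hbb]
  have h1 : Set.range z ⊆ {e | φ e = 0} := by
    rintro _ ⟨b, rfl⟩
    exact hz2 b
  have h2 := Set.ncard_le_ncard h1 (Set.toFinite _)
  rw [← Set.image_univ, Set.ncard_image_of_injective _ hinj, Set.ncard_univ,
    Nat.card_eq_fintype_card, Fintype.card_fin] at h2
  exact h2

/-- the zero flow -/
theorem zero_flow : IsFourFlow gs gt (fun _ => true) (fun _ => 0) where
  bound := by intro e; norm_num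
  cons := by intro v; simp

theorem g_cubic : IsCubic gs gt where
  loopless := g_loopless
  cubic := by
    intro v
    have h1 : {e | gs e = v ∨ gt e = v} = Set.range (ginc v) := by
      ext e
      exact g_inc v e
    rw [h1, ← Set.image_univ, Set.ncard_image_of_injective _ (fun k k' => g_inj v k k'),
      Set.ncard_univ, Nat.card_eq_fintype_card, Fintype.card_fin]

theorem g_bridgeless : IsBridgeless gs gt := fun e => go_sound e _ _ _ (g_path e)

theorem g_resist : resistance gs gt ≤ 4 := by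
  refine Nat.sInf_le ⟨gc, g_col, 3, ?_⟩
  have h1 : {e | gc e = 3} = ((Finset.univ.filter fun e => gc e = 3 : Finset (Fin 81)) :
      Set (Fin 81)) := by
    ext e
    simp
  rw [h1, Set.ncard_coe_finset]
  exact g_class

theorem g_flow : 5 ≤ flowResistance gs gt := by
  refine le_csInf ⟨_, _, _, zero_flow, rfl⟩ ?_
  rintro k ⟨D, φ, hf, rfl⟩
  exact zeros hf

theorem final : ∃ s t : Fin 81 → Fin 54, IsCubic s t ∧ IsBridgeless s t ∧
    resistance s t ≤ 4 ∧ 5 ≤ flowResistance s t :=
  ⟨gs, gt, g_cubic, g_bridgeless, g_resist, g_flow⟩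

end Run7.h236.Rf
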